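import Pool.Agent.Helper74.CL.Adm

/-!
For every exponent `m ≥ 1` all `k ≥ m (log log m + 2)` occur: some element `w` of the derived
group of the free group of rank two has `cl (w ^ m) = k`.
-/

set_option autoImplicit false

namespace Pool.Agent.Results.MP_cd7e06_al.LogLog

theorem result (k m : ℕ) (hm : 1 ≤ m) (hk : m * (Nat.log 2 (Nat.log 2 m) + 2) ≤ k) :
    H74CL.Adm k m := H74CL.adm_loglog k m hm hk

end Pool.Agent.Results.MP_cd7e06_al.LogLog
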