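import Pool.Agent.Helper74.CL.Small
import Pool.Agent.Helper74.CL.Nec3
import Pool.Agent.CD7.OddAll
import Pool.Agent.Helper79.CDE.Even

/-!
The admissible pairs `(k, m)` with `m` odd or `1 ≤ m ≤ 18` are exactly those with `m < 2 k`.
-/

set_option autoImplicit false

namespace Pool.Agent.Results.MP_cd7e06_al.OddExponents

theorem result (k m : ℕ) (hk : 1 ≤ k) (hm1 : 1 ≤ m) (hm : Odd m ∨ m ≤ 18) :
    H74CL.Adm k m ↔ m < 2 * k := by
  refine ⟨H74CL.adm_nec hk, fun h => ?_⟩
  by_cases ho : Odd m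
  · exact H74CD7.adm_odd k m ho h
  · have h18 : m ≤ 18 := hm.resolve_left ho
    obtain ⟨r, hr⟩ := Nat.not_odd_iff_even.1 ho
    by_cases h6 : m ≤ 6
    · exact H74CL.adm_small k m (by omega) h
    · exact H79CDE.adm_even18 k m (by omega) h

end Pool.Agent.Results.MP_cd7e06_al.OddExponents
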